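import Mathlib
import Pool.Agent.Q128.PropMain

/-!
# The proportional choice number of `K_{n,m}` is asymptotically `m / 2` for fixed `n`

For all `n, m ≥ 1` we show `m / 2 + 1 ≤ χ_pc(K_{n,m}) ≤ (m + 1) / 2 + 2 n ²`.
-/

set_option autoImplicit false

namespace Pool.Agent.Results.MP_f66848_co.HalfLimit

open Filter Topology

/-- The multiplicity of the colour `c` in the list assignment `L`: the number of the vertices whose
list contains `c`. -/
def mult {V : Type} [Fintype V] (L : V → Finset ℕ) (c : ℕ) : ℕ :=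
  (Finset.univ.filter (fun v => c ∈ L v)).card

/-- `G` is proportionally `k`-choosable: for all lists of exactly `k` colours there is a proper
colouring `f` from the lists such that every colour `c` of the palette is used on exactly
`⌊η(c) / k⌋` or exactly `⌈η(c) / k⌉` vertices, where `η(c)` is the multiplicity of `c`. -/
def ProportionallyChoosable {V : Type} [Fintype V] (G : SimpleGraph V) (k : ℕ) : Prop :=
  ∀ L : V → Finset ℕ, (∀ v, (L v).card = k) →
    ∃ f : V → ℕ, (∀ v, f v ∈ L v) ∧ (∀ v w, G.Adj v w → f v ≠ f w) ∧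
      ∀ c, (∃ v, c ∈ L v) →
        (Finset.univ.filter (fun v => f v = c)).card = ⌊(mult L c : ℝ) / k⌋₊ ∨
        (Finset.univ.filter (fun v => f v = c)).card = ⌈(mult L c : ℝ) / k⌉₊

/-- The proportional choice number: the least `k ≥ 1` for which `G` is proportionally
`k`-choosable. -/
noncomputable def chipc {V : Type} [Fintype V] (G : SimpleGraph V) : ℕ :=
  sInf {k | 1 ≤ k ∧ ProportionallyChoosable G k}

theorem upper (n m k : ℕ) (hn : 1 ≤ n) (h1 : 4 * n ^ 2 + m ≤ 2 * k) (h2 : 2 * n ^ 2 ≤ k) :
    ProportionallyChoosable (completeBipartiteGraph (Fin n) (Fin m)) k := by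
  intro L hL
  obtain ⟨f, hf1, hf2, hf3, hf4⟩ := Q128.Prop.main_lemma k hn h1 h2 L hL
  have hnn : n ≤ n ^ 2 := by nlinarith
  have hkpos : 0 < k := by nlinarith
  have hkr : (0 : ℝ) < k := by exact_mod_cast hkpos
  refine ⟨f, hf1, ?_, ?_⟩
  · rintro (a | b) (a' | b') h
    · simp at h
    · exact hf2 a b'
    · exact (hf2 a' b).symm
    · simp at h
  · intro c hc
    obtain ⟨v0, hv0⟩ := hc
    have hm1 : 1 ≤ mult L c := Finset.card_pos.2
      ⟨v0, Finset.mem_filter.2 ⟨Finset.mem_univ _, hv0⟩⟩
    have hm2 : mult L c < 2 * k := by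
      have := Finset.card_le_univ (Finset.univ.filter (fun v => c ∈ L v))
      have h3 : mult L c ≤ n + m := by simpa [mult] using this
      nlinarith
    have hcap := hf3 c
    have hmm : Q128.Prop.mult L c = mult L c := rfl
    unfold Q128.Prop.cap at hcap
    rw [hmm] at hcap
    have hr1 : (1 : ℝ) ≤ mult L c := by exact_mod_cast hm1
    have hr2 : (mult L c : ℝ) < 2 * k := by exact_mod_cast hm2
    rcases lt_trichotomy (mult L c) k with hlt | heq | hgt
    · rw [if_neg (by omega)] at hcap
      have hltr : (mult L c : ℝ) < k := by exact_mod_cast hlt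
      have hfl : ⌊(mult L c : ℝ) / k⌋₊ = 0 := by
        rw [Nat.floor_eq_zero, div_lt_one hkr]
        exact hltr
      have hce : ⌈(mult L c : ℝ) / k⌉₊ = 1 := by
        rw [Nat.ceil_eq_iff (by norm_num)]
        constructor
        · simp only [Nat.sub_self, Nat.cast_zero]
          positivity
        · rw [Nat.cast_one, div_le_one hkr]
          exact hltr.le
      rw [hfl, hce]
      omega
    · rw [if_neg (by omega)] at hcap
      obtain ⟨v, hv⟩ := hf4 c (by rw [hmm]; omega)
      have h1' : 1 ≤ (Finset.univ.filter (fun v => f v = c)).card := Finset.card_pos.2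
        ⟨v, Finset.mem_filter.2 ⟨Finset.mem_univ _, hv⟩⟩
      have hfl : ⌊(mult L c : ℝ) / k⌋₊ = 1 := by
        rw [heq, div_self hkr.ne', Nat.floor_one]
      rw [hfl]
      omega
    · rw [if_pos hgt] at hcap
      obtain ⟨v, hv⟩ := hf4 c (by rw [hmm]; omega)
      have h1' : 1 ≤ (Finset.univ.filter (fun v => f v = c)).card := Finset.card_pos.2
        ⟨v, Finset.mem_filter.2 ⟨Finset.mem_univ _, hv⟩⟩
      have hgtr : (k : ℝ) < mult L c := by exact_mod_cast hgt
      have hfl : ⌊(mult L c : ℝ) / k⌋₊ = 1 := by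
        rw [Nat.floor_eq_iff (by positivity)]
        constructor
        · rw [Nat.cast_one, le_div_iff₀ hkr]
          linarith
        · rw [Nat.cast_one, div_lt_iff₀ hkr]
          linarith
      have hce : ⌈(mult L c : ℝ) / k⌉₊ = 2 := by
        rw [Nat.ceil_eq_iff (by norm_num)]
        constructor
        · norm_num
          rw [lt_div_iff₀ hkr]
          linarith
        · rw [div_le_iff₀ hkr]
          push_cast
          linarith
      rw [hfl, hce]
      omega

theorem lower (n m k : ℕ) (hn : 1 ≤ n) (hk : 1 ≤ k) (h : 2 * k ≤ m + 1) :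
    ¬ ProportionallyChoosable (completeBipartiteGraph (Fin n) (Fin m)) k := by
  intro hch
  have hkr : (0 : ℝ) < k := by
    have : 0 < k := by omega
    exact_mod_cast this
  set a0 : Fin n := ⟨0, by omega⟩ with ha0
  obtain ⟨f, hf1, hf2, hf3⟩ := hch (fun v => match v with
    | Sum.inl a => if a = a0 then Finset.range k else Finset.Ico k (2 * k)
    | Sum.inr _ => Finset.range k) (by
      rintro (a | b)
      · by_cases h1 : a = a0
        · simp [h1]
        · simp only [h1, if_false, Nat.card_Ico]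
          omega
      · simp)
  have h0 : f (Sum.inl a0) ∈ Finset.range k := by
    have := hf1 (Sum.inl a0)
    simpa using this
  have hclass : (Finset.univ.filter (fun v => f v = f (Sum.inl a0))).card = 1 := by
    rw [Finset.card_eq_one]
    refine ⟨Sum.inl a0, ?_⟩
    ext v
    simp only [Finset.mem_filter, Finset.mem_univ, true_and, Finset.mem_singleton]
    constructor
    · intro hv
      rcases v with a | b
      · by_contra hne
        have hne' : a ≠ a0 := fun h1 => hne (by rw [h1])
        have h1 := hf1 (Sum.inl a)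
        simp only [hne', if_false, Finset.mem_Ico] at h1
        rw [hv] at h1
        have h2 := Finset.mem_range.1 h0
        omega
      · exact absurd hv.symm (hf2 (Sum.inl a0) (Sum.inr b) (by simp))
    · rintro rfl
      rfl
  have hmult : m + 1 ≤ mult (fun v : Fin n ⊕ Fin m => match v with
    | Sum.inl a => if a = a0 then Finset.range k else Finset.Ico k (2 * k)
    | Sum.inr _ => Finset.range k) (f (Sum.inl a0)) := by
    unfold mult
    have hsub : insert (Sum.inl a0) ((Finset.univ : Finset (Fin m)).image Sum.inr) ⊆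
        Finset.univ.filter (fun v : Fin n ⊕ Fin m => f (Sum.inl a0) ∈ (match v with
          | Sum.inl a => if a = a0 then Finset.range k else Finset.Ico k (2 * k)
          | Sum.inr _ => Finset.range k)) := by
      intro v hv
      rw [Finset.mem_insert] at hv
      rcases hv with rfl | hv
      · simpa using h0
      · obtain ⟨b, _, rfl⟩ := Finset.mem_image.1 hv
        simpa using h0
    have h1 := Finset.card_le_card hsub
    rw [Finset.card_insert_of_notMem (by simp), Finset.card_image_of_injective _ Sum.inr_injective,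
      Finset.card_univ, Fintype.card_fin] at h1
    exact h1
  have h2 := hf3 (f (Sum.inl a0)) ⟨Sum.inl a0, by simpa using h0⟩
  rw [hclass] at h2
  have hge : (2 : ℝ) ≤ (mult (fun v : Fin n ⊕ Fin m => match v with
    | Sum.inl a => if a = a0 then Finset.range k else Finset.Ico k (2 * k)
    | Sum.inr _ => Finset.range k) (f (Sum.inl a0)) : ℝ) / k := by
    rw [le_div_iff₀ hkr]
    exact_mod_cast h.trans hmult
  rcases h2 with h2 | h2
  · have : 2 ≤ ⌊(mult (fun v : Fin n ⊕ Fin m => match v with
      | Sum.inl a => if a = a0 then Finset.range k else Finset.Ico k (2 * k)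
      | Sum.inr _ => Finset.range k) (f (Sum.inl a0)) : ℝ) / k⌋₊ := Nat.le_floor (by simpa using hge)
    omega
  · have h3 : (2 : ℝ) ≤ ⌈(mult (fun v : Fin n ⊕ Fin m => match v with
      | Sum.inl a => if a = a0 then Finset.range k else Finset.Ico k (2 * k)
      | Sum.inr _ => Finset.range k) (f (Sum.inl a0)) : ℝ) / k⌉₊ := hge.trans (Nat.le_ceil _)
    rw [← h2] at h3
    norm_num at h3

theorem bounds (n m : ℕ) (hn : 1 ≤ n) :
    m + 2 ≤ 2 * chipc (completeBipartiteGraph (Fin n) (Fin m)) ∧
      2 * chipc (completeBipartiteGraph (Fin n) (Fin m)) ≤ m + 1 + 4 * n ^ 2 := by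
  have hn2 : 1 ≤ n ^ 2 := Nat.one_le_pow _ _ hn
  have hmem : (m + 1) / 2 + 2 * n ^ 2 ∈
      {k | 1 ≤ k ∧ ProportionallyChoosable (completeBipartiteGraph (Fin n) (Fin m)) k} :=
    ⟨by omega, upper n m _ hn (by omega) (by omega)⟩
  have h1 := Nat.sInf_mem ⟨_, hmem⟩
  have h2 := Nat.sInf_le hmem
  unfold chipc
  constructor
  · by_contra hcon
    exact lower n m _ hn h1.1 (by omega) h1.2
  · omega

/-- **Main theorem.** `m / 2 + 1 ≤ χ_pc(K_{n,m}) ≤ (m + 1) / 2 + 2 n ²` for all `n ≥ 1` and `m`; so
for every fixed `n` the quotient `χ_pc(K_{n,m}) / m` tends to `1 / 2` as `m → ∞`. -/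
theorem result :
    (∀ n m : ℕ, 1 ≤ n → m + 2 ≤ 2 * chipc (completeBipartiteGraph (Fin n) (Fin m)) ∧
      2 * chipc (completeBipartiteGraph (Fin n) (Fin m)) ≤ m + 1 + 4 * n ^ 2) ∧
    ∀ n : ℕ, 1 ≤ n → Tendsto
      (fun m : ℕ => (chipc (completeBipartiteGraph (Fin n) (Fin m)) : ℝ) / m) atTop
        (𝓝 (1 / 2)) := by
  refine ⟨fun n m hn => bounds n m hn, fun n hn => ?_⟩
  have hlow : Tendsto (fun m : ℕ => (1 : ℝ) / 2 + 1 / m) atTop (𝓝 (1 / 2)) := by
    have := (tendsto_const_nhds (x := (1 : ℝ) / 2)).add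
      (tendsto_one_div_atTop_nhds_zero_nat (𝕜 := ℝ))
    simpa using this
  have hup : Tendsto (fun m : ℕ => (1 : ℝ) / 2 + ((1 + 4 * (n : ℝ) ^ 2) / 2) * (1 / m)) atTop
      (𝓝 (1 / 2)) := by
    have := (tendsto_const_nhds (x := (1 : ℝ) / 2)).add
      ((tendsto_one_div_atTop_nhds_zero_nat (𝕜 := ℝ)).const_mul ((1 + 4 * (n : ℝ) ^ 2) / 2))
    simpa using this
  refine tendsto_of_tendsto_of_tendsto_of_le_of_le' hlow hup ?_ ?_
  · filter_upwards [eventually_ge_atTop 1] with m hm
    have hmr : (0 : ℝ) < m := by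
      have : 0 < m := by omega
      exact_mod_cast this
    have h1 : ((m + 2 : ℕ) : ℝ) ≤ ((2 * chipc (completeBipartiteGraph (Fin n) (Fin m)) : ℕ) : ℝ) := by
      exact_mod_cast (bounds n m hn).1
    push_cast at h1
    rw [le_div_iff₀ hmr]
    have : ((1 : ℝ) / 2 + 1 / m) * m = m / 2 + 1 := by field_simp
    rw [this]
    linarith
  · filter_upwards [eventually_ge_atTop 1] with m hm
    have hmr : (0 : ℝ) < m := by
      have : 0 < m := by omega
      exact_mod_cast this
    have h1 : ((2 * chipc (completeBipartiteGraph (Fin n) (Fin m)) : ℕ) : ℝ) ≤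
        ((m + 1 + 4 * n ^ 2 : ℕ) : ℝ) := by
      exact_mod_cast (bounds n m hn).2
    push_cast at h1
    rw [div_le_iff₀ hmr]
    have : ((1 : ℝ) / 2 + ((1 + 4 * (n : ℝ) ^ 2) / 2) * (1 / m)) * m =
        m / 2 + (1 + 4 * (n : ℝ) ^ 2) / 2 := by field_simp
    rw [this]
    linarith

end Pool.Agent.Results.MP_f66848_co.HalfLimit
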